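import Pool.Agent.X205.FinRet.General

/-!
# Lipschitz constants of retractions of finite subset spaces grow at least linearly

Configurations `{0, t_0, …, t_k, 1}` of the line, `k + 1` even, form a quotient of a simplex whose
facets (an odd number of them) are all glued to the same smaller space; a mod 2 degree argument of
Sperner-Kuhn type shows that no retraction can stay close to the identity.
-/

set_option autoImplicit false

namespace Pool.Agent.Results.MP_dc63d3_gt.LinearLowerBound

universe u

/-- `r` maps the nonempty subsets of `H` with at most `N` points to nonempty subsets with at most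
`N - 1` points and fixes the nonempty subsets with at most `N - 1` points. -/
def IsRetraction {H : Type u} (N : ℕ) (r : Finset H → Finset H) : Prop :=
  (∀ s : Finset H, s.Nonempty → s.card ≤ N → (r s).Nonempty ∧ (r s).card ≤ N - 1) ∧
  (∀ s : Finset H, s.Nonempty → s.card ≤ N - 1 → r s = s)

/-- `r` is Lipschitz with constant `C` for the Hausdorff distance on the nonempty subsets of `H`
with at most `N` points. -/
def LipschitzWithConst {H : Type u} [MetricSpace H] (N : ℕ) (C : ℝ) (r : Finset H → Finset H) :
    Prop :=
  ∀ s t : Finset H, s.Nonempty → s.card ≤ N → t.Nonempty → t.card ≤ N →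
    Metric.hausdorffDist ((r s : Finset H) : Set H) ((r t : Finset H) : Set H)
      ≤ C * Metric.hausdorffDist ((s : Finset H) : Set H) ((t : Finset H) : Set H)

/-- Let `H` be a nontrivial real inner product space and `N ≥ 4` even.  Every retraction of `H(N)`
onto `H(N - 1)` which is Lipschitz with constant `C` satisfies `C > (N - 1) / 4 - 1`. -/
theorem result (H : Type u) [NormedAddCommGroup H] [InnerProductSpace ℝ H] [Nontrivial H]
    (N : ℕ) (hN : Even N) (hN4 : 4 ≤ N) (r : Finset H → Finset H) (hr : IsRetraction N r)
    (C : ℝ) (hC : LipschitzWithConst N C r) : ((N : ℝ) - 1) / 4 - 1 < C := by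
  by_contra hcon
  push Not at hcon
  have hC0 : 0 ≤ C := by
    by_contra hneg
    push Not at hneg
    obtain ⟨a, b, hab⟩ := exists_pair_ne H
    have h1 := hC {a} {b} (by simp) (by simp; omega) (by simp) (by simp; omega)
    rw [hr.2 {a} (by simp) (by simp; omega), hr.2 {b} (by simp) (by simp; omega)] at h1
    have h2 : 0 < Metric.hausdorffDist ((({a} : Finset H)) : Set H) ((({b} : Finset H)) : Set H) := by
      rw [Finset.coe_singleton, Finset.coe_singleton, Metric.hausdorffDist_singleton]
      exact dist_pos.2 hab
    nlinarith
  exact absurd (Pool.Agent.X205.FinRet.no_ret_inner H N hN hN4 C hC0 r hr.1 hr.2 hC)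
    (not_lt.2 hcon)

end Pool.Agent.Results.MP_dc63d3_gt.LinearLowerBound
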